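import Pool.Agent.TH206.Fro.Defs

set_option autoImplicit false

namespace Pool.Agent.TH176.NM

open Finset Pool.Agent.TH206.Fro
open scoped Pointwise

/-- The monomials of degree `e` in the variables after those of `a`. -/
noncomputable def HS (n e : ℕ) (a : Fin n →₀ ℕ) : Finset (Fin n →₀ ℕ) :=
  (Mon n e).filter (fun w => ∀ i j, a i ≠ 0 → w j ≠ 0 → i ≤ j)

/-- The monomials of degree `l` without divisors in `A`. -/
noncomputable def M0 (n l : ℕ) (A : Finset (Fin n →₀ ℕ)) : Finset (Fin n →₀ ℕ) :=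
  (Mon n l).filter (fun y => ∀ a ∈ A, ¬ a ≤ y)

lemma mv_apply_target {n : ℕ} (i j : Fin n) (c : Fin n →₀ ℕ) : mv i j c i ≠ 0 := by
  unfold mv
  simp

lemma mv_apply_ne {n : ℕ} (i j l : Fin n) (c : Fin n →₀ ℕ) (hl : l ≠ j) (hc : c l ≠ 0) :
    mv i j c l ≠ 0 := by
  unfold mv
  simp only [Finsupp.add_apply, Finsupp.tsub_apply, Finsupp.single_apply]
  rw [if_neg (Ne.symm hl)]
  omega

lemma HS_anti (n k e : ℕ) (c : Fin n →₀ ℕ) (i j : Fin n) (hij : i < j) (hi : 0 < c i) :
    (HS n e (mv j i c)).card ≤ (HS n e c).card := by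
  apply Finset.card_le_card
  intro w hw
  unfold HS at hw ⊢
  rw [Finset.mem_filter] at hw ⊢
  refine ⟨hw.1, fun l t hl ht => ?_⟩
  by_cases hli : l = i
  · subst hli
    exact hij.le.trans (hw.2 j t (mv_apply_target j l c) ht)
  · exact hw.2 l t (mv_apply_ne j i l c hli hl) ht

/-- for `0` the first index -/
lemma HS_pow_card (n k e : ℕ) (z : Fin n) (hz : ∀ i, z ≤ i) :
    (HS n e (Finsupp.single z k)).card = (Mon n e).card := by
  congr 1
  unfold HS
  rw [Finset.filter_true_of_mem]
  intro w _ i j hi _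
  have : i = z := by
    by_contra h
    exact hi (Finsupp.single_eq_of_ne h)
  rw [this]
  exact hz j

lemma HS_pow_mv (n k e : ℕ) (he : 1 ≤ e) (z : Fin n) (hz : ∀ i, z ≤ i) (j : Fin n) (hj : z < j) :
    (HS n e (mv j z (Finsupp.single z k))).card + (Mon n (e - 1)).card ≤ (Mon n e).card := by
  classical
  have hinj : Function.Injective (fun w : Fin n →₀ ℕ => w + Finsupp.single z 1) :=
    fun a b h => add_right_cancel h
  rw [← Finset.card_image_of_injective (Mon n (e - 1)) hinj, ← Finset.card_union_of_disjoint]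
  · apply Finset.card_le_card
    intro w hw
    rw [Finset.mem_union] at hw
    rcases hw with hw | hw
    · exact (Finset.mem_filter.1 hw).1
    · obtain ⟨v, hv, rfl⟩ := Finset.mem_image.1 hw
      rw [mem_Mon'] at hv ⊢
      rw [map_add, hv, Finsupp.degree_single]
      omega
  · rw [Finset.disjoint_left]
    intro w hw hw'
    obtain ⟨v, hv, rfl⟩ := Finset.mem_image.1 hw'
    have h := (Finset.mem_filter.1 hw).2 j z (mv_apply_target j z _) (by simp)
    exact absurd hj (not_lt.2 h)

end Pool.Agent.TH176.NM
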